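import Mathlib
import Pool.Agent.W651.SubA

set_option autoImplicit false

namespace Pool.Agent.Results.MP_a8ba19_gt.NotSubmetrizable

/-- There is a regular rectifiable space of countable pseudocharacter which admits no coarser
metrizable topology. -/
theorem result :
    ∃ (X : Type) (τ : TopologicalSpace X), T3Space X ∧
      (∃ (φ : (X × X) ≃ₜ (X × X)) (e : X),
        (∀ p : X × X, (φ p).1 = p.1) ∧ ∀ x : X, φ (x, x) = (x, e)) ∧
      (∀ x : X, IsGδ ({x} : Set X)) ∧
      ∀ t : TopologicalSpace X, τ ≤ t → ¬ @TopologicalSpace.MetrizableSpace X t := by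
  refine ⟨Pool.Agent.W651.Sub.A, inferInstance, Pool.Agent.W651.Sub.t3A,
    ⟨Pool.Agent.W651.Sub.phi, Pool.Agent.W651.Sub.o, fun p => ?_, fun x => ?_⟩,
    Pool.Agent.W651.Sub.gdelta, Pool.Agent.W651.Sub.not_submetrizable⟩
  · rw [Pool.Agent.W651.Sub.phi_apply]
  · rw [Pool.Agent.W651.Sub.phi_apply]
    show (x, Pool.Agent.W651.Sub.D x x) = (x, Pool.Agent.W651.Sub.o)
    rw [Pool.Agent.W651.Sub.D_self]

end Pool.Agent.Results.MP_a8ba19_gt.NotSubmetrizable
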